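import Pool.Agent.Q102.PR.Poly

/-!
# Reductive operators with a polynomial that is a perturbation of a normal operator

Let every closed invariant subspace of `T` be reducing and let
`A = T ^ (n+1) + Z_{n-1} T ^ n + ... + Z_0 T`, where the `Z_j` are normal operators in the
bicommutant of `T` (for instance scalars, so that `A` may be any nonconstant polynomial in `T`
without constant term).  If `A = N + K` with `N` normal, and `K` has rank at most one, or the
spectrum of `N` lies on a rectifiable curve and the approximation numbers of `K` decay polynomially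
(for instance `K` in a Schatten class), then `T` is normal.

The operator `A` need not be reductive (already for selfadjoint `T` and a polynomial with complex
coefficients), so this is not a case of the results on reductive operators `N + K`.  The proof works
with pairs `(T, A)`: `A` commutes with `T` and leaves the closed invariant subspaces of `T`
invariant.  It shows that `A` is normal; a reductive operator that is algebraic over the normal
elements of its bicommutant is normal.
-/

set_option autoImplicit false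

open Metric
open scoped InnerProductSpace

namespace Pool.Agent.Results.MP_49c4d9_an.PolynomialPerturbations

/-- `T` is reductive: every closed invariant subspace of `T` is invariant under the adjoint. -/
def Reductive {H : Type} [NormedAddCommGroup H] [InnerProductSpace ℂ H] [CompleteSpace H]
    (T : H →L[ℂ] H) : Prop :=
  ∀ V : Submodule ℂ H, IsClosed (V : Set H) → (∀ x ∈ V, T x ∈ V) →
    ∀ x ∈ V, ContinuousLinearMap.adjoint T x ∈ V

/-- `Z` is in the bicommutant of `T`: it commutes with all operators that commute with `T`. -/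
def InBicommutant {H : Type} [NormedAddCommGroup H] [InnerProductSpace ℂ H]
    (T Z : H →L[ℂ] H) : Prop :=
  ∀ S : H →L[ℂ] H, S * T = T * S → S * Z = Z * S

/-- `K` has rank at most one. -/
def RankAtMostOne {H : Type} [NormedAddCommGroup H] [InnerProductSpace ℂ H]
    (K : H →L[ℂ] H) : Prop :=
  ∃ u v : H, ∀ f : H, K f = ⟪v, f⟫_ℂ • u

/-- The approximation number `a_m(K)`: the distance in operator norm from `K` to the set of
operators of rank at most `m` (on a Hilbert space this is the singular number `s_{m+1}(K)`). -/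
noncomputable def approxNumber {H : Type} [NormedAddCommGroup H] [InnerProductSpace ℂ H]
    (K : H →L[ℂ] H) (m : ℕ) : ℝ :=
  sInf {r : ℝ | ∃ G : H →L[ℂ] H, FiniteDimensional ℂ (LinearMap.range (G : H →ₗ[ℂ] H)) ∧
    Module.finrank ℂ (LinearMap.range (G : H →ₗ[ℂ] H)) ≤ m ∧ r = ‖K - G‖}

/-- The approximation numbers of `K` decay polynomially. -/
def PolyDecay {H : Type} [NormedAddCommGroup H] [InnerProductSpace ℂ H] (K : H →L[ℂ] H) : Prop :=
  ∃ C ε : ℝ, 0 < ε ∧ ∀ m : ℕ, 1 ≤ m → approxNumber K m ≤ C / (m : ℝ) ^ ε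

/-- `Γ` is a rectifiable curve: the image of `[0,1]` under a Lipschitz map. -/
def RectifiableCurve (Γ : Set ℂ) : Prop :=
  ∃ (γ : ℝ → ℂ) (L : NNReal), LipschitzWith L γ ∧ Γ = γ '' Set.Icc 0 1

section aux

variable {H : Type} [NormedAddCommGroup H] [InnerProductSpace ℂ H]

theorem ne (K : H →L[ℂ] H) (m : ℕ) :
    {r : ℝ | ∃ G : H →L[ℂ] H, FiniteDimensional ℂ (LinearMap.range (G : H →ₗ[ℂ] H)) ∧
      Module.finrank ℂ (LinearMap.range (G : H →ₗ[ℂ] H)) ≤ m ∧ r = ‖K - G‖}.Nonempty := by
  have h0 : LinearMap.range ((0 : H →L[ℂ] H) : H →ₗ[ℂ] H) = ⊥ := LinearMap.range_zero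
  refine ⟨‖K - 0‖, 0, ?_, ?_, rfl⟩
  · rw [h0]; infer_instance
  · rw [h0]; simp

theorem decay_of {K : H →L[ℂ] H} (h : PolyDecay K) : Pool.Agent.W402.HI.ApproxDecay K := by
  obtain ⟨C, ε, hε, h⟩ := h
  refine ⟨C + 1, ε, hε, fun m hm => ?_⟩
  have hm0 : (0 : ℝ) < m := by exact_mod_cast hm
  have h1 : approxNumber K m < (C + 1) / (m : ℝ) ^ ε := by
    refine (h m hm).trans_lt ?_
    have : (0 : ℝ) < (m : ℝ) ^ ε := by positivity
    gcongr
    linarith
  obtain ⟨r, ⟨G, hG1, hG2, rfl⟩, hr⟩ := exists_lt_of_csInf_lt (ne K m) h1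
  exact ⟨G, hG1, hG2, hr.le⟩

end aux

/-- Let `T` be reductive and let `Z j` be normal operators in the bicommutant of `T`.  If
`T ^ (n+1) + ∑ j, Z j * T ^ (j+1) = N + K`, where `N` is normal and either `K` has rank at most one,
or the spectrum of `N` lies on a rectifiable curve and the approximation numbers of `K` decay
polynomially, then `T` is normal. -/
theorem result {H : Type} [NormedAddCommGroup H] [InnerProductSpace ℂ H] [CompleteSpace H]
    (T : H →L[ℂ] H) (hred : Reductive T) (n : ℕ) (Z : Fin n → (H →L[ℂ] H))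
    (hZ : ∀ j, InBicommutant T (Z j)) (hZn : ∀ j, IsStarNormal (Z j))
    (N K : H →L[ℂ] H) (hN : IsStarNormal N)
    (hA : T ^ (n + 1) + ∑ j : Fin n, Z j * T ^ ((j : ℕ) + 1) = N + K)
    (hK : RankAtMostOne K ∨ ((∃ Γ : Set ℂ, RectifiableCurve Γ ∧ spectrum ℂ N ⊆ Γ) ∧ PolyDecay K)) :
    IsStarNormal T := by
  have hZ' : ∀ j, ∀ S : H →L[ℂ] H, Commute S T → Commute S (Z j) := hZ
  have hbic : ∀ S : H →L[ℂ] H, Commute S T →
      Commute S (T ^ (n + 1) + ∑ j : Fin n, Z j * T ^ ((j : ℕ) + 1)) :=
    fun S hS => Q102.PR.comm_poly n Z hZ' hS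
  refine Q102.PR.of_normal hred n Z hZ' ?_ hbic ?_
  · intro j
    exact ⟨H, inferInstance, inferInstance, inferInstance, Z j, 1, 1, hZn j, fun x y h => h,
      fun x => subset_closure ⟨x, rfl⟩, by ext x; rfl, by ext x; rfl⟩
  · have hP := Q102.PR.bic_pair hred hbic
    rw [hA] at hP ⊢
    rcases hK with ⟨u, v, huv⟩ | ⟨⟨Γ, ⟨γ, L, hγ, rfl⟩, hs⟩, hK⟩
    · refine Q102.PR.main H T N (N + K) hN u v (fun f => ?_) hP
      show N f + K f = _
      rw [huv f]
    · exact Q102.PR.curveP T N K hN γ L hγ hs (decay_of hK) hP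

end Pool.Agent.Results.MP_49c4d9_an.PolynomialPerturbations
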