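import Mathlib
import Pool.Agent.Q256.RWC.Str
import Pool.Agent.Results.MP_49c4d9_an.ReductiveTranslations

/-!
# Reductive weighted composition operators (MP_49c4d9_an)

Let `μ` be a finite measure on a standard Borel space `X`, `S : X → X` nonsingular (not assumed
invertible), `φ` measurable and let `T f = φ · (f ∘ S)` be bounded on `L²(μ)`.  Assume that `T` is
reductive.

(1) Then on the set `A = {φ ≠ 0}` (minus a null set) the map `S` is a bijection of `A`, nonsingular in
both directions and conservative, and `T` vanishes on the functions supported outside `A`.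

(2) If `μ` is a probability measure, `S` preserves `μ` and is ergodic, and `log |φ|` is integrable, then
`T` is normal.

For invertible `S` and bounded `φ` part (2) is the starting result `ReductiveTranslations`.

Idea of the proof of (1).  For a measurable set `B` the space of the functions supported in `Bᶜ` is
invariant if `x ∈ B` and `φ x ≠ 0` imply `S x ∈ B`; since it is reducing, then also `x ∉ B` and
`φ x ≠ 0` imply `S x ∉ B`, up to null sets.  The closure `R` of the range of `T` is invariant, hence so is
its orthogonal complement, on which `T` must vanish; this gives `R = L²(A)`.  So `φ ψ` with `ψ` bounded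
and injective is a limit of functions `φ · (f ∘ S)`, and `S` must be injective on `A` off a null set.
-/

set_option autoImplicit false
open MeasureTheory Set
open Pool.Agent.Results.MP_49c4d9_an.ReductiveTranslations

namespace Pool.Agent.Results.MP_49c4d9_an.ReductiveCompositions

/-- **Reductive weighted composition operators.** -/
theorem result (X : Type) [MeasurableSpace X] [StandardBorelSpace X]
    (μ : Measure X) [IsFiniteMeasure μ] (S : X → X) (hS : Measure.QuasiMeasurePreserving S μ μ)
    (φ : X → ℂ) (hφ : Measurable φ)
    (T : Op μ) (hT : IsWeightedTranslation φ S T) (hr : IsReductive T) :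
    -- (1) structure
    (∃ (A : Set X) (e : X ≃ᵐ X), MeasurableSet A ∧ (∀ x ∈ A, φ x ≠ 0) ∧
      (∀ᵐ x ∂μ, x ∉ A → φ x = 0) ∧ BijOn S A A ∧ (∀ x ∈ A, e x = S x) ∧ (∀ x, x ∉ A → e x = x) ∧
      Measure.QuasiMeasurePreserving e μ μ ∧ Measure.QuasiMeasurePreserving e.symm μ μ ∧
      IsWeightedTranslation φ e T ∧
      (∀ B : Set X, MeasurableSet B → (∀ᵐ x ∂μ, x ∈ B → e x ∈ B) →
        ∀ᵐ x ∂μ, e x ∈ B → x ∈ B)) ∧
    -- (2) normality
    (IsProbabilityMeasure μ → Ergodic S μ → Integrable (fun x => Real.log ‖φ x‖) μ →
      IsStarNormal T) := by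
  obtain ⟨A, e, hA, hA0, hoff, hbij, he1, he2, he3, he4, he5, he6⟩ :=
    Pool.Agent.Q256.RWC.str hS hφ hT hr
  refine ⟨⟨A, e, hA, hA0, hoff, hbij, he1, he2, he3, he4, he5, he6⟩, ?_⟩
  intro hprob herg hlog
  have hpre : A ≤ᵐ[μ] S ⁻¹' A := by
    filter_upwards with x hx
    exact hbij.1 hx
  rcases herg.ae_empty_or_univ_of_ae_le_preimage hA.nullMeasurableSet hpre
    with h | h
  · -- the weight vanishes
    have hφ0 : ∀ᵐ x ∂μ, φ x = 0 := by
      filter_upwards [hoff, h] with x h1 h2
      apply h1
      intro hx
      have : (x ∈ (∅ : Set X)) := by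
        have h3 : A x = (∅ : Set X) x := h2
        exact (h3 ▸ hx : (∅ : Set X) x)
      exact this
    have hT0 : T = 0 := by
      ext1 f
      apply Lp.ext
      filter_upwards [hT f, hφ0, Lp.coeFn_zero ℂ 2 μ] with x h1 h2 h3
      rw [h1, h2, zero_mul]
      exact h3.symm
    rw [hT0]
    infer_instance
  · -- the map is invertible
    have hmem : ∀ᵐ x ∂μ, x ∈ A := by
      filter_upwards [h] with x h2
      have h3 : A x = (univ : Set X) x := h2
      exact (h3 ▸ (mem_univ x) : A x)
    have heS : (e : X → X) =ᵐ[μ] S := by
      filter_upwards [hmem] with x hx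
      exact he1 x hx
    have hmp : MeasurePreserving e μ μ :=
      ⟨e.measurable, by rw [Measure.map_congr heS]; exact herg.map_eq⟩
    have hergE : Ergodic e μ :=
      { toMeasurePreserving := hmp
        aeconst_set := by
          intro s hs hes
          apply herg.quasiErgodic.aeconst_set₀ hs.nullMeasurableSet
          filter_upwards [heS] with x hx
          have h4 : (e ⁻¹' s) x = s x := by rw [hes]
          rw [← h4]
          show (S x ∈ s) = (e x ∈ s)
          rw [hx] }
    have hbd := Pool.Agent.Q256.RWC.weight_le e hmp hφ he5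
    -- a bounded version of the weight
    classical
    set φ' : X → ℂ := fun x => if ‖φ x‖ ≤ ‖T‖ then φ x else 0 with hφ'
    have hφ'm : Measurable φ' :=
      Measurable.ite (measurableSet_le hφ.norm measurable_const) hφ measurable_const
    have hφ'b : ∀ x, ‖φ' x‖ ≤ ‖T‖ := by
      intro x
      simp only [hφ']
      split_ifs with h5
      · exact h5
      · simp
    have hφφ' : ∀ᵐ x ∂μ, φ x = φ' x := by
      filter_upwards [hbd] with x hx
      simp only [hφ', if_pos hx]
    have hlog' : Integrable (fun x => Real.log ‖φ' x‖) μ := by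
      refine hlog.congr ?_
      filter_upwards [hφφ'] with x hx
      rw [hx]
    have hT' : IsWeightedTranslation φ' e T := by
      intro f
      filter_upwards [he5 f, hφφ'] with x h1 h2
      rw [h1, h2]
    exact ReductiveTranslations.result X μ e hergE φ' hφ'm ⟨‖T‖, hφ'b⟩ hlog' T hT' hr

end Pool.Agent.Results.MP_49c4d9_an.ReductiveCompositions
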