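import Pool.Agent.Q202.HC.Red

/-!
# Reductive compressions of normal operators to hyperplanes are normal

Let `N` be an arbitrary normal operator on a complex Hilbert space `H`, `M` a closed subspace of
codimension one and `T` the compression of `N` to `M`. If `T` is reductive then `T` is normal.

Proof. For large `z` the operators `T` and `A = (T - z)⁻¹` have the same closed invariant subspaces, so `A`
is reductive. The projection to `M` is a norm limit of polynomials in `A ⊕ 0`, so every closed invariant
subspace of `A ⊕ 0` is the sum of one of `A` and one of `0`, and `A ⊕ 0` is reductive. It is a rank one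
perturbation of the normal operator `(N - z)⁻¹`, hence normal by the theorem of the starting library on
reductive rank one perturbations (`ReductiveCouplings` in this folder). So `A` and `T` are normal.
-/

set_option autoImplicit false

open scoped InnerProductSpace

namespace Pool.Agent.Results.MP_49c4d9_an.ReductiveCompressions

section Defs

variable {H : Type} [NormedAddCommGroup H] [InnerProductSpace ℂ H]

/-- Every closed invariant subspace of `T` is invariant under the adjoint. -/
def IsReductive [CompleteSpace H] (T : H →L[ℂ] H) : Prop :=
  ∀ V : Submodule ℂ H, IsClosed (V : Set H) → (∀ x ∈ V, T x ∈ V) →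
    ∀ x ∈ V, ContinuousLinearMap.adjoint T x ∈ V

/-- `T` is the compression of `N` to the subspace `M`: `T x` is the orthogonal projection of `N x`
to `M`. -/
def IsCompression (N : H →L[ℂ] H) (M : Submodule ℂ H) (T : M →L[ℂ] M) : Prop :=
  ∀ x y : M, ⟪(y : H), (T x : H)⟫_ℂ = ⟪(y : H), N (x : H)⟫_ℂ

end Defs

/-- **Every reductive operator which is the compression of a normal operator to a closed hyperplane is
normal.** -/
theorem result (H : Type) [NormedAddCommGroup H] [InnerProductSpace ℂ H] [CompleteSpace H]
    (N : H →L[ℂ] H) (hN : IsStarNormal N)
    (M : Submodule ℂ H) [CompleteSpace M] (hM : Module.finrank ℂ Mᗮ = 1)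
    (T : M →L[ℂ] M) (hT : IsCompression N M T) (hred : IsReductive T) : IsStarNormal T := by
  obtain ⟨w, hw⟩ := Pool.Agent.Q202.HC.exists_hyp M hM
  refine Pool.Agent.Q202.HC.redA hw N hN T (fun x => ?_) hred
  refine ext_inner_left ℂ fun y => ?_
  rw [Submodule.inner_orthogonalProjectionOnto_eq_of_mem_left]
  exact hT x y

end Pool.Agent.Results.MP_49c4d9_an.ReductiveCompressions
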