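import Pool.Agent.Q202.HC.Red

/-!
# Reductive operators with a normal compression to a hyperplane are normal

Let `T` be a bounded operator on a complex Hilbert space `H` whose compression to some closed subspace `M`
of codimension one is normal: with respect to `H = M ⊕ Mᗮ` the matrix of `T` is `((N, a), (b, c))` with `N`
normal, vectors `a`, `b` and a number `c`, all arbitrary. If `T` is reductive then `T` is normal.

Proof. For large `z` the operators `T` and `A = (T - z)⁻¹` have the same closed invariant subspaces, so `A`
is reductive. `A` is a rank one perturbation of the normal operator `(N - z)⁻¹ ⊕ 0`, hence normal by the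
theorem of the starting library on reductive rank one perturbations (`ReductiveCouplings` in this folder).
-/

set_option autoImplicit false

open scoped InnerProductSpace

namespace Pool.Agent.Results.MP_49c4d9_an.ReductiveNormalCompression

section Defs

variable {H : Type} [NormedAddCommGroup H] [InnerProductSpace ℂ H]

/-- Every closed invariant subspace of `T` is invariant under the adjoint. -/
def IsReductive [CompleteSpace H] (T : H →L[ℂ] H) : Prop :=
  ∀ V : Submodule ℂ H, IsClosed (V : Set H) → (∀ x ∈ V, T x ∈ V) →
    ∀ x ∈ V, ContinuousLinearMap.adjoint T x ∈ V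

/-- `N` is the compression of `T` to the subspace `M`: `N x` is the orthogonal projection of `T x`
to `M`. -/
def IsCompression (T : H →L[ℂ] H) (M : Submodule ℂ H) (N : M →L[ℂ] M) : Prop :=
  ∀ x y : M, ⟪(y : H), (N x : H)⟫_ℂ = ⟪(y : H), T (x : H)⟫_ℂ

end Defs

/-- **Every reductive operator whose compression to some closed hyperplane is normal is normal.** -/
theorem result (H : Type) [NormedAddCommGroup H] [InnerProductSpace ℂ H] [CompleteSpace H]
    (T : H →L[ℂ] H) (M : Submodule ℂ H) [CompleteSpace M] (hM : Module.finrank ℂ Mᗮ = 1)
    (N : M →L[ℂ] M) (hN : IsStarNormal N) (hT : IsCompression T M N) (hred : IsReductive T) :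
    IsStarNormal T := by
  obtain ⟨w, hw⟩ := Pool.Agent.Q202.HC.exists_hyp M hM
  refine Pool.Agent.Q202.HC.redB hw T N hN (fun x => ?_) hred
  refine ext_inner_left ℂ fun y => ?_
  rw [Submodule.inner_orthogonalProjectionOnto_eq_of_mem_left]
  exact hT x y

end Pool.Agent.Results.MP_49c4d9_an.ReductiveNormalCompression
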